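import Pool.Agent.H83.TK.Dim
import Pool.Agent.H20.TU.FA6
import Pool.Agent.H71.Hartogs

/-!
# [H83 AY Hrt] ABUNDANCE (MP_e49dc9_ag): normal varieties

* `Nml X`: the local rings are integrally closed in the function field.
* `pt_prime`: the prime ideals of a local ring are the points which specialize to the point.
* `hrt`: Hartogs: the local ring at `x` of a normal variety is the intersection of the discrete valuation rings `X.O P.η`, `P` a prime divisor
  through `x`.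
* `hrt_sec`: a function which is a section of `D` at all prime divisors is a section.
-/

set_option autoImplicit false

namespace Pool.Agent.H83.AY

open Pool.Agent.H54.RV Pool.Agent.H83.TU Pool.Agent.H83.TK

variable {k K : Type} [Field k] [Field K] [Algebra k K] {X : Mod k K}

/-- the local rings are integrally closed in the function field -/
def Nml (X : Mod k K) : Prop := ∀ x, ∀ a : K, IsIntegral (X.O x) a → a ∈ X.O x

theorem fr_O (hX : IsVar X) (hg : ∃ g, Gen X g) (x : X.P) : IsFractionRing (X.O x) K := by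
  obtain ⟨U, hU, hx⟩ := hX.chart x
  have hle : ∀ a ∈ X.sec U, a ∈ X.O x := fun a ha => (mem_sec U a).1 ha x hx
  refine ⟨?_, ?_, ?_⟩
  · rintro ⟨y, hy⟩
    exact isUnit_iff_ne_zero.2 fun h0 => (nonZeroDivisors.ne_zero hy) (Subtype.ext h0)
  · intro z
    obtain ⟨s, hs, hs0, hzs⟩ := gen_frac hX hg U hU ⟨x, hx⟩ z
    refine ⟨⟨⟨_, hle _ hzs⟩, ⟨⟨s, hle _ hs⟩,
      mem_nonZeroDivisors_of_ne_zero fun h0 => hs0 (congrArg Subtype.val h0)⟩⟩, rfl⟩
  · intro a b hab
    exact ⟨1, by rw [show a = b from Subtype.ext hab]⟩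

theorem noe_O (hX : IsVar X) (x : X.P) : IsNoetherianRing (X.O x) := by
  obtain ⟨U, hU, hx⟩ := hX.chart x
  exact Pool.Agent.H20.TU.noeth hX U hU x hx

theorem ic_O (hX : IsVar X) (hg : ∃ g, Gen X g) (hN : Nml X) (x : X.P) : IsIntegrallyClosed (X.O x) := by
  have := fr_O hX hg x
  refine (isIntegrallyClosed_iff K).2 fun {a} ha => ⟨⟨a, hN x a ha⟩, rfl⟩

/-- the prime ideals of a local ring are points -/
theorem pt_prime (hX : IsVar X) (x : X.P) (I : Ideal (X.O x)) (hI : I.IsPrime) :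
    ∃ z, z ⤳ x ∧ (∀ a : X.O x, a ∈ I ↔ ¬ Un (X.O z) a) ∧
      ∀ b ∈ X.O z, ∃ s ∈ X.O x, Un (X.O z) s ∧ b * s ∈ X.O x := by
  obtain ⟨U, hU, hxU⟩ := hX.chart x
  have hRx : ∀ a ∈ X.sec U, a ∈ X.O x := fun a ha => (mem_sec U a).1 ha x hxU
  let j : X.sec U →ₐ[k] X.O x := Subalgebra.inclusion fun a ha => hRx a ha
  obtain ⟨z, hzU, hz⟩ := hX.prime U hU ⟨x, hxU⟩ (Ideal.comap j I) (Ideal.comap_isPrime _ _)
  have hz' : ∀ a (ha : a ∈ X.sec U), (⟨a, hRx a ha⟩ : X.O x) ∈ I ↔ ¬ Un (X.O z) a := fun a ha => hz ⟨a, ha⟩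
  have hnun : ∀ (a : K) (ha : a ∈ X.O x), Un (X.O x) a → (⟨a, ha⟩ : X.O x) ∉ I := fun a ha hu hh =>
    hI.ne_top (Ideal.eq_top_of_isUnit_mem _ hh ((un_iff ha).2 hu))
  have hspec : z ⤳ x := by
    rw [specializes_iff_forall_open]
    intro V hV hxV
    obtain ⟨a, ha, hax, hay⟩ := hX.bas U V x hU hV hxU hxV
    apply hay z hzU
    by_contra hc
    exact hnun a (ha x hxU) hax ((hz' a ((mem_sec U a).2 ha)).2 hc)
  refine ⟨z, hspec, ?_, ?_⟩
  · rintro ⟨a, ha⟩
    obtain ⟨u, hu, hux, hau⟩ := hX.frac U x hU hxU a ha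
    have h1 : Un (X.O z) u := by
      by_contra hc
      exact hnun u (hRx u hu) hux ((hz' u hu).2 hc)
    have h2 := hz' (a * u) hau
    have h3 : (⟨a * u, hRx _ hau⟩ : X.O x) = ⟨a, ha⟩ * ⟨u, hRx u hu⟩ := rfl
    have h4 : (⟨a * u, hRx _ hau⟩ : X.O x) ∈ I ↔ (⟨a, ha⟩ : X.O x) ∈ I := by
      rw [h3]
      refine ⟨fun h => (hI.mem_or_mem h).resolve_right (hnun u _ hux), fun h => I.mul_mem_right _ h⟩
    rw [← h4, h2]
    exact not_congr (un_mul_un h1)
  · intro b hb
    obtain ⟨s, hs, hsu, hbs⟩ := hX.frac U z hU hzU b hb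
    exact ⟨s, hRx s hs, hsu, hRx _ hbs⟩

/-- a discrete valuation ring is a place -/
theorem place_of_dvr (A : Subalgebra k K) (hf : IsFractionRing A K) (hd : IsDiscreteValuationRing A) :
    ∃ p : Place k K, ∀ a, a ∈ A ↔ a ∈ p.R := by
  let V : ValuationSubring K :=
    { toSubring := A.toSubring
      mem_or_inv_mem' := fun a => by
        rcases ValuationRing.isInteger_or_isInteger A a with ⟨b, hb⟩ | ⟨b, hb⟩
        · exact Or.inl (hb ▸ b.2)
        · exact Or.inr (hb ▸ b.2) }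
  let e : A ≃+* V :=
    { toFun := fun a => ⟨a.1, a.2⟩
      invFun := fun a => ⟨a.1, a.2⟩
      left_inv := fun _ => rfl
      right_inv := fun _ => rfl
      map_mul' := fun _ _ => rfl
      map_add' := fun _ _ => rfl }
  exact ⟨⟨V, fun c => A.algebraMap_mem c, IsDiscreteValuationRing.RingEquivClass.isDiscreteValuationRing e⟩, fun a => Iff.rfl⟩

/-- a point of a normal variety whose local ring does not contain `a` is on a prime divisor whose local ring does not contain `a` -/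
theorem hrt_pt (hX : IsVar X) (hg : ∃ g, Gen X g) (hN : Nml X) (x : X.P) {a : K} (ha : a ∉ X.O x) :
    ∃ P : PDiv X, P.η ⤳ x ∧ a ∉ X.O P.η := by
  have hfr := fr_O hX hg x
  have hno := noe_O hX x
  obtain ⟨n, d, hd, hnd⟩ := IsFractionRing.div_surjective (A := X.O x) a
  have hd0 : (d : K) ≠ 0 := fun h => nonZeroDivisors.ne_zero hd (Subtype.ext h)
  have hda : a * d = n := by
    rw [← hnd]
    change (n : K) / (d : K) * (d : K) = n
    field_simp
  let m : X.O x ⧸ Ideal.span {d} := Ideal.Quotient.mk _ n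
  have hm : m ≠ 0 := by
    intro h
    obtain ⟨c, hc⟩ := Ideal.mem_span_singleton.1 (Ideal.Quotient.eq_zero_iff_mem.1 h)
    apply ha
    have h1 : a = c := by
      have h2 : (n : K) = d * c := congrArg Subtype.val hc
      apply mul_right_cancel₀ hd0
      rw [hda, h2, mul_comm]
    rw [h1]
    exact c.2
  obtain ⟨P, hP, hle⟩ := exists_le_isAssociatedPrime_of_isNoetherianRing (X.O x) m hm
  rw [isAssociatedPrime_iff] at hP
  obtain ⟨hPp, z', hz'⟩ := hP
  obtain ⟨y, rfl⟩ := Ideal.Quotient.mk_surjective z'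
  have hmemP : ∀ b : X.O x, b ∈ P ↔ b * y ∈ Ideal.span {d} := by
    intro b
    rw [hz', Submodule.mem_colon_singleton, Submodule.mem_bot, ← Ideal.Quotient.eq_zero_iff_mem, map_mul]
    rfl
  have hcol : ∀ b : X.O x, b * n ∈ Ideal.span {d} → b ∈ P := by
    intro b hb
    apply hle
    rw [Submodule.mem_colon_singleton, Submodule.mem_bot]
    change Ideal.Quotient.mk _ (b * n) = 0
    rw [Ideal.Quotient.eq_zero_iff_mem]
    exact hb
  obtain ⟨z, hzx, hz1, hz2⟩ := pt_prime hX x P hPp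
  have hxz : X.O x ≤ X.O z := hX.spec _ _ hzx
  have hfz := fr_O hX hg z
  have hnz := noe_O hX z
  have hiz := ic_O hX hg hN z
  let i : X.O x →ₐ[k] X.O z := Subalgebra.inclusion hxz
  have hd0' : i d ≠ 0 := fun h => hd0 (congrArg Subtype.val h)
  have h2 : i y ∉ Ideal.span {i d} := by
    intro h
    obtain ⟨c, hc⟩ := Ideal.mem_span_singleton.1 h
    obtain ⟨s, hs, hsu, hcs⟩ := hz2 c c.2
    have h3 : (⟨s, hs⟩ : X.O x) ∈ P := by
      rw [hmemP, Ideal.mem_span_singleton]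
      refine ⟨⟨_, hcs⟩, Subtype.ext ?_⟩
      have h4 : (y : K) = d * c := congrArg Subtype.val hc
      change s * (y : K) = (d : K) * (c * s)
      rw [h4]
      ring
    exact (hz1 _).1 h3 hsu
  have h1 : ∀ b ∈ IsLocalRing.maximalIdeal (X.O z), b * i y ∈ Ideal.span {i d} := by
    intro b hb
    obtain ⟨s, hs, hsu, hbs⟩ := hz2 b b.2
    have h3 : (⟨(b : K) * s, hbs⟩ : X.O x) ∈ P := by
      rw [hz1]
      intro h4
      have h5 : Un (X.O z) (b : K) := (un_mul_iff b.2 hsu.2.1).1 h4 |>.1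
      exact (IsLocalRing.mem_maximalIdeal _).1 hb ((un_iff b.2).2 h5)
    rw [hmemP] at h3
    obtain ⟨c, hc⟩ := Ideal.mem_span_singleton.1 h3
    rw [Ideal.mem_span_singleton]
    refine ⟨⟨(c : K) * s⁻¹, mul_mem (hxz c.2) hsu.2.2⟩, Subtype.ext ?_⟩
    have h4 : (b : K) * s * y = d * c := congrArg Subtype.val hc
    have h5 := hsu.1
    change (b : K) * (y : K) = (d : K) * ((c : K) * s⁻¹)
    rw [← mul_assoc, ← h4]
    field_simp
  have hpr := Pool.Agent.H71.principal_of_colon (i y) (i d) hd0' h1 h2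
  have hnf : ¬ IsField (X.O z) := by
    intro hf
    apply h2
    obtain ⟨c, hc⟩ := hf.mul_inv_cancel hd0'
    rw [Ideal.mem_span_singleton]
    refine ⟨c * i y, ?_⟩
    rw [← mul_assoc, hc, one_mul]
  have hdvr : IsDiscreteValuationRing (X.O z) :=
    ((IsDiscreteValuationRing.TFAE (X.O z) hnf).out 0 4).2 hpr
  obtain ⟨p, hp⟩ := place_of_dvr (X.O z) hfz hdvr
  refine ⟨⟨z, p, hp⟩, hzx, fun haz => ?_⟩
  obtain ⟨s, hs, hsu, has⟩ := hz2 a haz
  have h3 : (⟨s, hs⟩ : X.O x) ∈ P := by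
    apply hcol
    rw [Ideal.mem_span_singleton]
    refine ⟨⟨_, has⟩, Subtype.ext ?_⟩
    change s * (n : K) = (d : K) * (a * s)
    rw [← hda]
    ring
  exact (hz1 _).1 h3 hsu

/-- **Hartogs** -/
theorem hrt (hX : IsVar X) (hg : ∃ g, Gen X g) (hN : Nml X) (x : X.P) {a : K}
    (ha : ∀ P : PDiv X, P.η ⤳ x → a ∈ X.O P.η) : a ∈ X.O x := by
  by_contra hc
  obtain ⟨P, h1, h2⟩ := hrt_pt hX hg hN x hc
  exact h2 (ha P h1)

/-- a section at all prime divisors is a section -/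
theorem hrt_sec (hX : IsVar X) (hg : ∃ g, Gen X g) (hN : Nml X) (D : Cart X) {a : K}
    (ha : ∀ P : PDiv X, a * D.eq P.η ∈ X.O P.η) : Sec D 1 a := by
  intro x
  rw [pow_one]
  refine hrt hX hg hN x fun P hP => ?_
  have h1 := quo_un D P.η x hP
  have h2 : a * D.eq x = a * D.eq P.η * (D.eq x / D.eq P.η) := by
    have := D.ne P.η
    field_simp
  rw [h2]
  exact mul_mem (ha P) h1.2.1

end Pool.Agent.H83.AY
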