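import Pool.Agent.H83.AY.Idn
import Pool.Agent.H83.TK.BcF

/-!
# [H83 AY Hor] ABUNDANCE (MP_e49dc9_ag): horizontal prime divisors

`ctr : Y.P → X.P` with `X.O (ctr y) ≤ Y.O y` dominated.
* `hor`: a prime divisor `P` of `X` whose local ring contains the constants `F` of `Y` is a prime divisor of `Y` (same local ring, `ctr Q.η = P.η`).
* `hor_T`: the same on the generic surface `T = subM zX` and the generic curve `Γ = subM zY`: if the local ring of a prime divisor `t` of `T`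
  contains `F'` then the sections on `Γ` are sections at `t`.
-/

set_option autoImplicit false

namespace Pool.Agent.H83.AY

open Pool.Agent.H54.RV MvPolynomial Pool.Agent.H83.TU Pool.Agent.H83.TK

/-- every local ring of `Y` dominates a local ring of `X` -/
structure Ctr {k F K : Type} [Field k] [Field F] [Field K] [Algebra k K] [Algebra F K] (X : Mod k K) (Y : Mod F K)
    (c : Y.P → X.P) : Prop where
  le : ∀ y, ∀ a ∈ X.O (c y), a ∈ Y.O y
  un : ∀ y, ∀ a ∈ X.O (c y), Un (Y.O y) a → Un (X.O (c y)) a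

section hor

variable {k F K : Type} [Field k] [Field F] [Field K] [Algebra k K] [Algebra F K] {X : Mod k K} {Y : Mod F K}
  {c : Y.P → X.P}

theorem hor (hX : IsVar X) (hgX : ∃ g, Gen X g) (hY : IsVar Y) (hgY : ∃ g, Gen Y g) (hc : Ctr X Y c) (P : PDiv X)
    (hP : ∀ a : F, algebraMap F K a ∈ X.O P.η) :
    ∃ Q : PDiv Y, (∀ a, a ∈ Y.O Q.η ↔ a ∈ X.O P.η) ∧ c Q.η = P.η := by
  let p : Place F K := ⟨P.p.R, fun a => (P.mem _).1 (hP a), P.p.dvr⟩
  obtain ⟨y, hy⟩ : ∃ y, y = cenK hY hgY p := ⟨_, rfl⟩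
  have hdom := cenK_dom hY hgY p
  rw [← hy] at hdom
  have h1 : c y = P.η := by
    rw [← P.cen hX hgX]
    refine cenK_eq hX hgX P.p (c y) fun a ha => ⟨(hdom a (hc.le y a ha)).1, fun h0 hi => ?_⟩
    exact (hc.un y a ha ⟨h0, hc.le y a ha, (hdom a (hc.le y a ha)).2 h0 hi⟩).2.2
  have h2 : ∀ a, a ∈ Y.O y ↔ a ∈ X.O P.η := by
    intro a
    constructor
    · intro ha
      exact (P.mem a).2 (hdom a ha).1
    · intro ha
      refine hc.le y a ?_
      rw [h1]
      exact ha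
  exact ⟨⟨y, p, fun a => (h2 a).trans (P.mem a)⟩, h2, h1⟩

end hor

section horT

variable {k F K k' F' K' : Type} [Field k] [Field F] [Field K] [Field k'] [Field F'] [Field K'] [Algebra k K]
  [Algebra F K] [Algebra k k'] [Algebra F F'] [Algebra K K'] [Algebra k' K'] [Algebra F' K'] [Algebra k K']
  [Algebra F K'] [IsScalarTower k K K'] [IsScalarTower k k' K'] [IsScalarTower F K K']
  [IsScalarTower F F' K'] {σ : Type} [Fintype σ] {X : Mod k K} {Y : Mod F K} {l : σ → k'} {l' : σ → F'}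
  {c : Y.P → X.P}

/-- the centre on `X` of the centre on the generic curve -/
theorem ctr_T [T0Space X.P] (hX : IsVar X) (hc : Ctr X Y c) (h : BC k K k' K' l) (h' : BC F K F' K' l')
    {zX : BP X σ} {zY : BP Y σ} (hgX : Gen X zX.x) (e : (bcM X h).kap zX ≃+* (bcM Y h').kap zY)
    (he : ∀ a ∈ (bcM X h).O zX, e ((bcM X h).rs zX a) = (bcM Y h').rs zY a)
    (p : Place k' ((bcM X h).kap zX)) (q : Place F' ((bcM Y h').kap zY)) (hpq : ∀ a, a ∈ p.R ↔ e a ∈ q.R)
    {t : BP X σ} {y : BP Y σ} (ht : Cen (bcM X h) zX t p) (hy : Cen (bcM Y h') zY y q) : c y.x = t.x := by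
  obtain ⟨x₀, -, hu⟩ := bc_ctr hX h zX p
  have hm : ∀ a : K, a ∈ X.O zX.x := by
    intro a
    rw [hgX.top]
    exact Algebra.mem_top
  have hrs : ∀ a : K, resH h zX (C (X.rs zX.x a)) = (bcM X h).rs zX (algebraMap K K' a) := by
    intro a
    have h1 := resH_red h zX (C ⟨a, hm a⟩)
    rw [ev_C] at h1
    rw [← h1]
    congr 1
    unfold red
    rw [map_C]
    congr 1
    unfold Mod.rs
    rw [dif_pos (hm a)]
    rfl
  have hmem : ∀ a : K, algebraMap K K' a ∈ (bcM X h).O zX := fun a => alg_mem h zX (hm a)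
  have h1 : t.x = x₀ := by
    refine hu t.x ⟨hgX.spec _, fun a ha => ?_⟩
    rw [hrs]
    obtain ⟨-, h2, h3⟩ := ht
    obtain ⟨h4, h5⟩ := h3 _ (alg_mem h t ha)
    refine ⟨h4, fun h6 h7 => ?_⟩
    have h8 := h5 h6 h7
    have h9 : Un (bcO h t) (algebraMap K K' a) := by
      refine ⟨fun h0 => h6 ?_, alg_mem h t ha, h8⟩
      rw [h0]
      exact rs_zero (X := bcM X h) zX
    exact ((un_alg h t ha).1 h9).2.2
  have h2 : c y.x = x₀ := by
    refine hu (c y.x) ⟨hgX.spec _, fun a ha => ?_⟩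
    rw [hrs]
    obtain ⟨-, h2, h3⟩ := hy
    have hay : a ∈ Y.O y.x := hc.le _ _ ha
    obtain ⟨h4, h5⟩ := h3 _ (alg_mem h' y hay)
    rw [← he _ (hmem a)] at h4 h5
    refine ⟨(hpq _).2 h4, fun h6 h7 => ?_⟩
    have h8 := h5 ((map_ne_zero_iff e e.injective).2 h6) (by
      rw [← map_inv₀]
      exact (hpq _).1 h7)
    have h9 : Un (bcO h' y) (algebraMap K K' a) := by
      refine ⟨fun h0 => h6 ?_, alg_mem h' y hay, h8⟩
      rw [h0]
      exact rs_zero (X := bcM X h) zX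
    exact (hc.un _ _ ha ((un_alg h' y hay).1 h9)).2.2
  rw [h1, h2]

/-- a horizontal prime divisor of the generic surface: sections on the generic curve are sections there -/
theorem hor_T [T0Space X.P] [T0Space Y.P] (hX : IsVar X) (hgX : ∃ g, Gen X g) (hY : IsVar Y) (hgY : ∃ g, Gen Y g)
    (hc : Ctr X Y c) (h : BC k K k' K' l) (h' : BC F K F' K' l')
    {zX : BP X σ} {zY : BP Y σ} (hzX : Gen X zX.x) (hcz : c zY.x = zX.x)
    (e : (bcM X h).kap zX ≃+* (bcM Y h').kap zY)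
    (he : ∀ a ∈ (bcM X h).O zX, e ((bcM X h).rs zX a) = (bcM Y h').rs zY a)
    (P : PDiv (subM (isVar_bc (σ := σ) hX hgX h) zX))
    (hP : ∀ b : F', e.symm (algebraMap F' ((bcM Y h').kap zY) b) ∈ (subM (isVar_bc (σ := σ) hX hgX h) zX).O P.η)
    {V : Cart X} {V' : Cart Y} (hV : ∀ y, V'.eq y = V.eq (c y)) {f : K'} (hf : f ≠ 0) {g : (bcM Y h').kap zY}
    (hg : Sec (resD (isVar_bc (σ := σ) hY hgY h') zY (bcD hY hgY h' V' * prin (bcM Y h') f hf)) 1 g) :
    e.symm g * (resD (isVar_bc (σ := σ) hX hgX h) zX (bcD hX hgX h V * prin (bcM X h) f hf)).eq P.η ∈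
      (subM (isVar_bc (σ := σ) hX hgX h) zX).O P.η := by
  have hVX : IsVar (bcM X h) := isVar_bc hX hgX h
  have hVY : IsVar (bcM Y h') := isVar_bc hY hgY h'
  obtain ⟨q, hq⟩ : ∃ q : Place F' ((bcM Y h').kap zY), ∀ a, a ∈ P.p.R ↔ e a ∈ q.R := by
    let V : ValuationSubring ((bcM Y h').kap zY) := P.p.R.comap (e.symm : (bcM Y h').kap zY →+* (bcM X h).kap zX)
    have hm : ∀ a, a ∈ V ↔ e.symm a ∈ P.p.R := fun a => Iff.rfl
    have := P.p.dvr
    let i : P.p.R ≃+* V :=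
      { toFun := fun a => ⟨e a.1, by rw [hm, e.symm_apply_apply]; exact a.2⟩
        invFun := fun a => ⟨e.symm a.1, a.2⟩
        left_inv := fun a => Subtype.ext (e.symm_apply_apply _)
        right_inv := fun a => Subtype.ext (e.apply_symm_apply _)
        map_mul' := fun a b => Subtype.ext (map_mul e _ _)
        map_add' := fun a b => Subtype.ext (map_add e _ _) }
    refine ⟨⟨V, fun b => ?_, IsDiscreteValuationRing.RingEquivClass.isDiscreteValuationRing i⟩, fun a => ?_⟩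
    · rw [hm]
      exact (P.mem _).1 (hP b)
    · change a ∈ P.p.R ↔ e a ∈ V
      rw [hm, e.symm_apply_apply]
  obtain ⟨y, hy, -⟩ := hVY.cen zY q
  have ht : Cen (bcM X h) zX P.η.1 P.p := by
    refine ⟨P.η.2, hVX.spec _ _ P.η.2, fun a ha => ?_⟩
    refine ⟨(P.mem _).1 (rs_mem_subO hVX P.η.2 ha), fun h0 h1 => ?_⟩
    have h2 : (bcM X h).rs zX a ∈ subO (bcM X h) zX P.η.1 := rs_mem_subO hVX P.η.2 ha
    exact ((un_subO hVX P.η.2 ha).1 ⟨h0, h2, (P.mem _).2 h1⟩).2.2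
  have hct : c (BP.x (X := Y) (σ := σ) y) = BP.x (X := X) (σ := σ) P.η.1 := ctr_T hX hc h h' hzX e he P.p q hq ht hy
  have h1 := hg ⟨y, hy.1⟩
  rw [pow_one] at h1
  obtain ⟨a, ha, ha2⟩ := (subO_iff hVY hy.1 _).1 h1
  have h2 : g * (resD hVY zY (bcD hY hgY h' V' * prin (bcM Y h') f hf)).eq ⟨y, hy.1⟩ ∈ q.R := by
    rw [← ha2]
    exact (hy.2.2 a ha).1
  obtain ⟨u, hu⟩ : ∃ u : K', u = (algebraMap K K' (V.eq (BP.x (X := X) (σ := σ) P.η.1)) * f) /
    (algebraMap K K' (V.eq zX.x) * f) := ⟨_, rfl⟩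
  have h3 : (resD hVX zX (bcD hX hgX h V * prin (bcM X h) f hf)).eq P.η = (bcM X h).rs zX u := by
    rw [hu]
    rfl
  have h4 : (resD hVY zY (bcD hY hgY h' V' * prin (bcM Y h') f hf)).eq ⟨y, hy.1⟩ = (bcM Y h').rs zY u := by
    have h5 : (resD hVY zY (bcD hY hgY h' V' * prin (bcM Y h') f hf)).eq ⟨y, hy.1⟩ =
      (bcM Y h').rs zY ((algebraMap K K' (V'.eq (BP.x (X := Y) (σ := σ) y)) * f) /
        (algebraMap K K' (V'.eq zY.x) * f)) := rfl
    rw [h5, hV, hV, hct, hcz, hu]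
  have h5 : u ∈ (bcM X h).O zX := by
    have h6 := (quo_un (bcD hX hgX h V * prin (bcM X h) f hf) zX P.η.1 P.η.2).2.1
    rw [hu]
    exact h6
  have h6 : e (e.symm g * (bcM X h).rs zX u) ∈ q.R := by
    rw [map_mul, e.apply_symm_apply, he u h5, ← h4]
    exact h2
  rw [h3]
  exact (P.mem _).2 ((hq _).2 h6)

end horT

end Pool.Agent.H83.AY
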