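import Pool.Agent.H83.AY.Hrt
import Pool.Agent.H83.TK.GsC

/-!
# [H83 AY Nrm] ABUNDANCE (MP_e49dc9_ag): base change and generic members of normal varieties are normal

* `nml_bc`: `bcM X h` is normal if `X` is.
* `nml_gs`: the generic member of a linear system without base points on a normal variety is normal.
* `gs_full`: `gs_main` with the point over the generic point, the prime ideal and normality.
-/

set_option autoImplicit false

namespace Pool.Agent.H83.AY

open Pool.Agent.H54.RV MvPolynomial Pool.Agent.H83.TU Pool.Agent.H83.TK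

theorem ic_mv (R : Type) [CommRing R] [IsDomain R] [IsIntegrallyClosed R] (σ : Type) [Finite σ] :
    IsIntegrallyClosed (MvPolynomial σ R) := by
  have key : ∀ n : ℕ, IsIntegrallyClosed (MvPolynomial (Fin n) R) := by
    intro n
    induction n with
    | zero => exact IsIntegrallyClosed.of_equiv (MvPolynomial.isEmptyAlgEquiv R (Fin 0)).symm.toRingEquiv
    | succ n ih =>
      have : IsIntegrallyClosed (Polynomial (MvPolynomial (Fin n) R)) := inferInstance
      exact IsIntegrallyClosed.of_equiv (MvPolynomial.finSuccEquiv R n).symm.toRingEquiv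
  obtain ⟨n, ⟨e⟩⟩ := Finite.exists_equiv_fin σ
  have := key n
  exact IsIntegrallyClosed.of_equiv (MvPolynomial.renameEquiv R e).symm.toRingEquiv

theorem ic_of_frac {A B : Type} [CommRing A] [IsDomain A] [IsIntegrallyClosed A] [CommRing B] [IsDomain B]
    (f : A →+* B) (hf : Function.Injective f) (hs : ∀ b : B, ∃ a s : A, IsUnit (f s) ∧ b * f s = f a) :
    IsIntegrallyClosed B := by
  let : Algebra A B := f.toAlgebra
  obtain ⟨S, hS⟩ : ∃ S : Submonoid A, S = (IsUnit.submonoid B).comap f := ⟨_, rfl⟩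
  have hmem : ∀ s, s ∈ S ↔ IsUnit (f s) := by
    intro s
    rw [hS]
    exact Iff.rfl
  have hloc : IsLocalization S B := by
    refine ⟨fun y => (hmem _).1 y.2, fun b => ?_, fun {x y} hxy => ⟨1, ?_⟩⟩
    · obtain ⟨a, s, h1, h2⟩ := hs b
      exact ⟨(a, ⟨s, (hmem s).2 h1⟩), h2⟩
    · rw [hf hxy]
  have hS0 : S ≤ nonZeroDivisors A := by
    intro s hs
    refine mem_nonZeroDivisors_of_ne_zero fun h0 => ?_
    have h1 := (hmem s).1 hs
    rw [h0, map_zero] at h1
    exact not_isUnit_zero h1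
  exact isIntegrallyClosed_of_isLocalization B S hS0

section lin

variable {R σ : Type} [CommRing R] [Fintype σ]

theorem lin_ic [IsDomain R] [IsIntegrallyClosed R] (u : Option σ → R) (j : σ) (hj : IsUnit (u (some j))) :
    IsDomain (MvPolynomial σ R ⧸ Ideal.span {lin u}) ∧
      IsIntegrallyClosed (MvPolynomial σ R ⧸ Ideal.span {lin u}) := by
  let φ : MvPolynomial {i : σ // i ≠ j} R →+* MvPolynomial σ R ⧸ Ideal.span {lin u} :=
    (Ideal.Quotient.mk _).comp (rename Subtype.val : MvPolynomial {i : σ // i ≠ j} R →ₐ[R] MvPolynomial σ R).toRingHom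
  have hφ : Function.Bijective φ := by
    constructor
    · rw [injective_iff_map_eq_zero]
      intro P hP
      have h1 : (rename Subtype.val P : MvPolynomial σ R) ∈ Ideal.span {lin u} := Ideal.Quotient.eq_zero_iff_mem.1 hP
      rw [Ideal.mem_span_singleton] at h1
      exact lin_rename u j hj P h1
    · intro q
      obtain ⟨f, rfl⟩ := Ideal.Quotient.mk_surjective q
      obtain ⟨P, hP⟩ := lin_elim u j hj f
      refine ⟨P, ?_⟩
      change Ideal.Quotient.mk _ (rename Subtype.val P) = Ideal.Quotient.mk _ f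
      rw [eq_comm, Ideal.Quotient.eq, Ideal.mem_span_singleton]
      exact hP
  let e := RingEquiv.ofBijective φ hφ
  have h1 : IsIntegrallyClosed (MvPolynomial {i : σ // i ≠ j} R) := ic_mv R _
  have h2 : IsDomain (MvPolynomial σ R ⧸ Ideal.span {lin u}) := e.symm.toMulEquiv.isDomain _
  exact ⟨h2, IsIntegrallyClosed.of_equiv e⟩

end lin

variable {k K k' K' : Type} [Field k] [Field K] [Field k'] [Field K'] [Algebra k K] [Algebra k k'] [Algebra K K']
  [Algebra k' K'] [Algebra k K'] [IsScalarTower k K K'] [IsScalarTower k k' K'] {σ : Type} [Fintype σ] {X : Mod k K}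
  {l : σ → k'}

private theorem gsc_res {k K : Type} [Field k] [Field K] [Algebra k K] (M : Mod k K) (z : M.P) :
    ∃ res : M.O z →+* M.kap z, (∀ a : M.O z, res a = M.rs z a) ∧ Function.Surjective res ∧
      ∀ c, res (algebraMap k (M.O z) c) = algebraMap k (M.kap z) c := by
  refine ⟨IsLocalRing.residue (M.O z), fun a => ?_, IsLocalRing.residue_surjective, fun c => rfl⟩
  unfold Mod.rs
  rw [dif_pos a.2]
  rfl

private theorem gsc_unit [T0Space X.P] (hX : IsVar X) {g : X.P} (hg : Gen X g) (h : BC k K k' K' l) {H : Cart X}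
    {s : Option σ → K} (hs : LSys X H s) (z : BP X σ) (hz : z.x = g)
    (hq : ∀ f : MvPolynomial σ (X.O z.x), red X σ z.x f ∈ z.q ↔
      map ((X.O z.x).val : X.O z.x →+* K) (linO hs z.x) ∣ map ((X.O z.x).val : X.O z.x →+* K) f)
    (w : BP X σ) (hw : (bcP X h).sp z w) :
    ∃ j : σ, IsUnit (⟨s (some j) * H.eq w.x, hs.mem w.x (some j)⟩ : X.O w.x) := by
  by_contra hcon
  push Not at hcon
  have h1 := (gs_sp hX hg h hs z hz hq w).1 hw
  obtain ⟨i, hi⟩ := hs.free w.x
  cases i with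
  | some j => exact hcon j ((un_iff _).2 hi)
  | none =>
    have h2 : red X σ w.x (linO hs w.x) =
        C (IsLocalRing.residue (X.O w.x) ⟨s none * H.eq w.x, hs.mem w.x none⟩) := by
      unfold linO red
      rw [map_lin]
      unfold lin
      have h3 : ∀ i : σ, IsLocalRing.residue (X.O w.x) ⟨s (some i) * H.eq w.x, hs.mem w.x (some i)⟩ = 0 := by
        intro i
        rw [IsLocalRing.residue_eq_zero_iff, IsLocalRing.mem_maximalIdeal, mem_nonunits_iff]
        exact hcon i
      have h5 : ∀ i : σ, (MvPolynomial.X i : MvPolynomial σ (X.kap w.x)) *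
          C (IsLocalRing.residue (X.O w.x) ⟨s (some i) * H.eq w.x, hs.mem w.x (some i)⟩) = 0 := by
        intro i
        exact (congrArg (fun c : X.kap w.x => (MvPolynomial.X i : MvPolynomial σ (X.kap w.x)) * C c)
          (h3 i)).trans ((congrArg _ C_0).trans (mul_zero _))
      have h7 := Finset.sum_eq_zero (s := Finset.univ) (fun i _ => h5 i)
      exact (congrArg (fun q => C (IsLocalRing.residue (X.O w.x) ⟨s none * H.eq w.x, hs.mem w.x none⟩) + q)
        h7).trans (add_zero _)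
    rw [h2] at h1
    have h3 : IsUnit (C (IsLocalRing.residue (X.O w.x) ⟨s none * H.eq w.x, hs.mem w.x none⟩) :
        MvPolynomial σ (X.kap w.x)) := by
      have h4 : IsUnit (⟨s none * H.eq w.x, hs.mem w.x none⟩ : X.O w.x) := (un_iff _).2 hi
      exact (h4.map (IsLocalRing.residue (X.O w.x))).map (C : X.kap w.x →+* MvPolynomial σ (X.kap w.x))
    exact w.prime.ne_top (Ideal.eq_top_of_isUnit_mem _ h1 h3)

/-- the equation is not a unit at the generic point -/
private theorem gsc_nun [T0Space X.P] (hX : IsVar X) {g : X.P} (hg : Gen X g) (h : BC k K k' K' l) {H : Cart X}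
    {s : Option σ → K} (hs : LSys X H s) (z : BP X σ) (hz : z.x = g)
    (hq : ∀ f : MvPolynomial σ (X.O z.x), red X σ z.x f ∈ z.q ↔
      map ((X.O z.x).val : X.O z.x →+* K) (linO hs z.x) ∣ map ((X.O z.x).val : X.O z.x →+* K) f)
    (w : BP X σ) : ¬ Un (bcO h z) (ev K' l (X.O w.x) (linO hs w.x)) := by
  have h1 : red X σ z.x (linO hs z.x) ∈ z.q := (hq _).2 (dvd_refl _)
  have h2 : ¬ Un (bcO h z) (ev K' l (X.O z.x) (linO hs z.x)) := by
    rw [un_ev h z]
    exact not_not.2 h1
  rw [ev_lin] at h2 ⊢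
  have hsp : z.x ⤳ w.x := by
    rw [hz]
    exact hg.spec w.x
  have h3 := quo_un H z.x w.x hsp
  have h4 : Un (bcO h z) (algebraMap K K' (H.eq w.x / H.eq z.x)) := (un_alg h z h3.2.1).2 h3
  have h5 : gsec K' l s * algebraMap K K' (H.eq w.x) =
      gsec K' l s * algebraMap K K' (H.eq z.x) * algebraMap K K' (H.eq w.x / H.eq z.x) := by
    have h6 : algebraMap K K' (H.eq w.x) = algebraMap K K' (H.eq z.x) *
        algebraMap K K' (H.eq w.x / H.eq z.x) := by
      rw [← map_mul]
      congr 1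
      have := H.ne z.x
      field_simp
    rw [h6]
    ring
  rw [h5, un_mul_un h4]
  exact h2

/-- the generic member of a linear system on a normal variety is normal (local rings) -/
theorem gs_ic [T0Space X.P] (hX : IsVar X) {g : X.P} (hg : Gen X g) (h : BC k K k' K' l) {H : Cart X}
    {s : Option σ → K} (hs : LSys X H s) (z : BP X σ) (hz : z.x = g)
    (hq : ∀ f : MvPolynomial σ (X.O z.x), red X σ z.x f ∈ z.q ↔
      map ((X.O z.x).val : X.O z.x →+* K) (linO hs z.x) ∣ map ((X.O z.x).val : X.O z.x →+* K) f)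
    (hu : ∀ x, IsIntegrallyClosed (X.O x)) (w : (subM (isVar_bc hX ⟨g, hg⟩ h) z).P) :
    IsIntegrallyClosed ((subM (isVar_bc hX ⟨g, hg⟩ h) z).O w) := by
  obtain ⟨w, hzw⟩ := w
  have hM : IsVar (bcM X h) := isVar_bc hX ⟨g, hg⟩ h
  change IsIntegrallyClosed (subO (bcM X h) z w)
  have hle : bcO h w ≤ bcO h z := hM.spec _ _ hzw
  have hsp : (bcP X h).sp z w := (Pre.sp_iff (bc_ok hX ⟨g, hg⟩ h) z w).1 hzw
  obtain ⟨j, hj⟩ := gsc_unit hX hg h hs z hz hq w hsp
  have hredw : red X σ w.x (linO hs w.x) ∈ w.q := (gs_sp hX hg h hs z hz hq w).1 hsp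
  have := hu w.x
  obtain ⟨hdom, hufd⟩ := lin_ic (fun i => (⟨s i * H.eq w.x, hs.mem w.x i⟩ : X.O w.x)) j hj
  change IsDomain (MvPolynomial σ (X.O w.x) ⧸ Ideal.span {linO hs w.x}) at hdom
  change IsIntegrallyClosed (MvPolynomial σ (X.O w.x) ⧸ Ideal.span {linO hs w.x}) at hufd
  have : IsLocalRing (bcO h z) := bcO_loc h z
  -- the map
  have hmem : ∀ p : MvPolynomial σ (X.O w.x), ev K' l (X.O w.x) p ∈ bcO h z := fun p => hle (ev_mem h w p)
  let φ₀ : MvPolynomial σ (X.O w.x) →+* bcO h z := (ev K' l (X.O w.x)).codRestrict (bcO h z) hmem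
  obtain ⟨res, hr1, hr2, hr3⟩ : ∃ res : bcO h z →+* (bcM X h).kap z,
    (∀ a : bcO h z, res a = (bcM X h).rs z a) ∧ Function.Surjective res ∧
      ∀ c, res (algebraMap k' (bcO h z) c) = algebraMap k' ((bcM X h).kap z) c := gsc_res (bcM X h) z
  let φ₁ : MvPolynomial σ (X.O w.x) →+* (bcM X h).kap z := res.comp φ₀
  have hφ₁ : ∀ p, φ₁ p = (bcM X h).rs z (ev K' l (X.O w.x) p) := fun p => hr1 (φ₀ p)
  have hφ₁m : ∀ p, φ₁ p ∈ subO (bcM X h) z w := by
    intro p
    rw [hφ₁]
    exact rs_mem_subO hM hzw (ev_mem h w p)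
  let φ₂ : MvPolynomial σ (X.O w.x) →+* subO (bcM X h) z w := φ₁.codRestrict (subO (bcM X h) z w) hφ₁m
  have hφ₂ : ∀ p, ((φ₂ p : subO (bcM X h) z w) : (bcM X h).kap z) = (bcM X h).rs z (ev K' l (X.O w.x) p) := hφ₁
  have hker : ∀ p, φ₂ p = 0 ↔ p ∈ Ideal.span {linO hs w.x} := by
    intro p
    rw [Ideal.mem_span_singleton]
    constructor
    · intro hp
      refine gs_dvd hX hg h hs z hz hq w hredw p ?_
      intro hun
      have h1 := (rs_ne (X := bcM X h) z (hmem p)).2 hun
      apply h1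
      rw [← hφ₂, hp]
      rfl
    · rintro ⟨q, rfl⟩
      rw [map_mul]
      have h1 : φ₂ (linO hs w.x) = 0 := by
        apply Subtype.ext
        rw [hφ₂]
        by_contra h2
        exact gsc_nun hX hg h hs z hz hq w ((rs_ne (X := bcM X h) z (hmem _)).1 h2)
      rw [h1, zero_mul]
  let φ : (MvPolynomial σ (X.O w.x) ⧸ Ideal.span {linO hs w.x}) →+* subO (bcM X h) z w :=
    Ideal.Quotient.lift _ φ₂ (fun a ha => (hker a).2 ha)
  refine ic_of_frac (A := MvPolynomial σ (X.O w.x) ⧸ Ideal.span {linO hs w.x})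
    (B := subO (bcM X h) z w) φ ?_ ?_
  · rw [injective_iff_map_eq_zero]
    intro a ha
    obtain ⟨p, rfl⟩ := Ideal.Quotient.mk_surjective a
    rw [Ideal.Quotient.eq_zero_iff_mem]
    exact (hker p).1 ha
  · rintro ⟨c, hc⟩
    obtain ⟨a, ha, rfl⟩ := (subO_iff hM hzw c).1 hc
    obtain ⟨f, q, h1, h2⟩ := (mem_bcO h w a).1 ha
    refine ⟨Ideal.Quotient.mk _ f, Ideal.Quotient.mk _ q, ?_, ?_⟩
    · change IsUnit (φ₂ q)
      have h3 : Un (subO (bcM X h) z w) ((bcM X h).rs z (ev K' l (X.O w.x) q)) :=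
        (un_subO hM hzw (ev_mem h w q)).2 ((un_ev h w q).2 h1)
      have h4 : φ₂ q = ⟨_, h3.2.1⟩ := Subtype.ext (hφ₂ q)
      rw [h4]
      exact (un_iff _).2 h3
    · apply Subtype.ext
      change (bcM X h).rs z a * (φ₂ q : (bcM X h).kap z) = (φ₂ f : (bcM X h).kap z)
      rw [hφ₂, hφ₂, ← h2, rs_mul (X := bcM X h) z (hle ha) (hmem q)]

omit [Fintype σ] in
/-- the local rings of the base change are integrally closed -/
theorem bc_ic [Finite σ] (h : BC k K k' K' l) (z : BP X σ) (hu : IsIntegrallyClosed (X.O z.x)) :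
    IsIntegrallyClosed (bcO h z) := by
  have hA : IsIntegrallyClosed (MvPolynomial σ (X.O z.x)) := ic_mv _ σ
  refine ic_of_frac ((ev K' l (X.O z.x)).codRestrict (bcO h z) (ev_mem h z)) ?_ ?_
  · intro a b hab
    exact ev_inj h (X.O z.x) (congrArg Subtype.val hab)
  · rintro ⟨b, hb⟩
    obtain ⟨f, g, h1, h2⟩ := (mem_bcO h z b).1 hb
    exact ⟨f, g, (un_iff _).2 ((un_ev h z g).2 h1), Subtype.ext h2⟩

omit [Fintype σ] in
theorem nml_of_ic {k K : Type} [Field k] [Field K] [Algebra k K] {X : Mod k K} (hX : IsVar X) (hg : ∃ g, Gen X g)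
    (hu : ∀ x, IsIntegrallyClosed (X.O x)) : Nml X := by
  intro x a ha
  have := fr_O hX hg x
  have := hu x
  obtain ⟨b, hb⟩ := IsIntegrallyClosed.isIntegral_iff.1 ha
  rw [← hb]
  exact b.2

omit [Fintype σ] in
theorem bc_ex_gen [Finite σ] [T0Space X.P] (hX : IsVar X) (hg : ∃ g, Gen X g) (h : BC k K k' K' l) :
    ∃ g, Gen (bcM X h) g := by
  obtain ⟨g, hg⟩ := hg
  exact ⟨_, bc_gen hX h hg Ideal.isPrime_bot fun c hc => by
    rw [Ideal.mem_bot]
    intro h0
    exact hc (map_injective _ (algebraMap k (X.kap g)).injective (h0.trans (map_zero _).symm))⟩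

/-- the base change of a normal variety is normal -/
theorem nml_bc [T0Space X.P] (hX : IsVar X) (hg : ∃ g, Gen X g) (h : BC k K k' K' l) (hN : Nml X) :
    Nml (bcM X h) := by
  refine nml_of_ic (isVar_bc hX hg h) ?_ fun z => bc_ic h z (ic_O hX hg hN _)
  exact bc_ex_gen hX hg h

/-- the generic member of a linear system without base points, with the point, the prime ideal and normality -/
theorem gs_full [T0Space X.P] (hX : IsVar X) {g : X.P} (hg : Gen X g) (h : BC k K k' K' l) {H : Cart X}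
    {s : Option σ → K} (hs : LSys X H s) :
    ∃ (z : BP X σ) (hsl : gsec K' l s ≠ 0), z.x = g ∧
      (∀ f : MvPolynomial σ (X.O z.x), red X σ z.x f ∈ z.q ↔
        map ((X.O z.x).val : X.O z.x →+* K) (linO hs z.x) ∣ map ((X.O z.x).val : X.O z.x →+* K) f) ∧
      SPr (bcM X h) z (bcD hX ⟨g, hg⟩ h H * prin (bcM X h) (gsec K' l s) hsl) ∧
      Algebra.trdeg k' ((bcM X h).kap z) + 1 = Algebra.trdeg k K ∧
      (Nml X → Nml (subM (isVar_bc hX ⟨g, hg⟩ h) z)) ∧
      ((∀ x, UniqueFactorizationMonoid (X.O x)) → ∀ w : (subM (isVar_bc hX ⟨g, hg⟩ h) z).P,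
        UniqueFactorizationMonoid ((subM (isVar_bc hX ⟨g, hg⟩ h) z).O w)) := by
  obtain ⟨z, hz, hq⟩ := gs_pt (σ := σ) hX hg hs
  have hV := isVar_bc hX ⟨g, hg⟩ h
  exact ⟨z, gsec_ne h hs g, hz, hq, gs_spr hX hg h hs z hz hq, gs_trdeg hX hg h hs z hz hq,
    fun hN => nml_of_ic (isVar_sub hV z) ⟨_, gen_sub hV z⟩
      fun w => gs_ic hX hg h hs z hz hq (fun x => ic_O hX ⟨g, hg⟩ hN x) w,
    fun hu w => gs_ufd hX hg h hs z hz hq hu w⟩

end Pool.Agent.H83.AY
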