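import Pool.Agent.H83.AY.Iot

/-!
# [H83 AY Har] ABUNDANCE (MP_e49dc9_ag): the valuations of the core

`har_gen`: finitely many places `v i` (the components of `W`, points `y i`), where the prime divisor `S` is a unit; for every `V` the sections of
`V + j W` are the sections of some `V + m W` with `(v i).ord f + (v i).ord (V.eq (y i)) ≥ - j (v i).ord (W.eq (y i))`.
`har_of`: the case `V = n S` (field `har` of `H60/AP/Pd`).  `har_tw`: the case `V = e D + n S`.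
-/

set_option autoImplicit false

namespace Pool.Agent.H83.AY

open Pool.Agent.H54.RV Pool.Agent.H83.TU Pool.Agent.H83.TK

variable {k K : Type} [Field k] [Field K] [Algebra k K] {X : Mod k K}

theorem iot_un (hX : IsVar X) {z : X.P} {S W : Cart X} (hS : SPr X z S) (hz : Un (X.O z) (W.eq z)) (i : Iot W) :
    Un (X.O i.1) (S.eq i.1) := by
  obtain ⟨y, ⟨P, rfl⟩, hy⟩ := i
  change Un (X.O P.η) (S.eq P.η)
  by_contra hn
  have h1 : z ⤳ P.η := by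
    by_contra h2
    exact hn (hS.un _ h2)
  have h2 : ¬ Un (X.O z) (S.eq P.η) := hS.nun _ h1
  have h3 := pdiv_max hX P h1 (S.ne _) h2
  have h4 := quo_un W z P.η h1
  apply hy
  have h5 := un_mul h4 hz
  rw [div_mul_cancel₀ _ (W.ne z), h3] at h5
  exact h5

theorem har_gen [T0Space X.P] (hX : IsVar X) (hg : ∃ g, Gen X g) (hN : Nml X) {z : X.P} {S W : Cart X}
    (hS : SPr X z S) (hW : Effective W) (hz : Un (X.O z) (W.eq z)) :
    ∃ (ι : Type) (_ : Finite ι) (v : ι → Place k K) (y : ι → X.P),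
      (∀ i a, a ∈ X.O (y i) ↔ a ∈ (v i).R) ∧ (∀ i, 0 < (v i).ord (W.eq (y i))) ∧ (∀ i, Un (X.O (y i)) (S.eq (y i))) ∧
      ∀ (V : Cart X) (j m : ℕ) (f : K), f ≠ 0 → Sec (V * W ^ m) 1 f →
        (Sec (V * W ^ j) 1 f ↔ ∀ i, -(j : ℤ) * (v i).ord (W.eq (y i)) ≤ (v i).ord f + (v i).ord (V.eq (y i))) := by
  refine ⟨Iot W, iot_fin hX hg W, plI, fun i => i.1, plI_mem, wI_pos hW, iot_un hX hS hz, ?_⟩
  intro V j m f hf hm
  rw [iot_sec hX hg hN hW V j f]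
  exact ⟨fun h i => h.2 i hf, fun h => ⟨⟨m, hm⟩, fun i _ => h i⟩⟩

theorem ord_un0 {κ : Type} [Field κ] [Algebra k κ] (p : Place k κ) {a : κ} (ha : a ≠ 0) (h1 : a ∈ p.R) (h2 : a⁻¹ ∈ p.R) :
    p.ord a = 0 := (ord_eq_zero p a ha).2 ⟨h1, h2⟩

theorem har_tw [T0Space X.P] (hX : IsVar X) (hg : ∃ g, Gen X g) (hN : Nml X) {z : X.P} {S W : Cart X}
    (hS : SPr X z S) (hW : Effective W) (hz : Un (X.O z) (W.eq z)) (D : Cart X) :
    ∃ (ι : Type) (_ : Finite ι) (v : ι → Place k K) (w u : ι → ℤ), (∀ i, 0 < w i) ∧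
      (∀ (t : ℕ) (θ : K), (∀ x, Un (X.O x) (θ * D.eq x ^ t)) → ∀ i, (v i).ord θ = -(t : ℤ) * u i) ∧
      ∀ (e j n m : ℕ) (f : K), f ≠ 0 → Sec (D ^ e * (W ^ m * S ^ n)) 1 f →
        (Sec (D ^ e * (W ^ j * S ^ n)) 1 f ↔ ∀ i, -(j : ℤ) * w i ≤ (v i).ord f + e * u i) := by
  obtain ⟨ι, hι, v, y, h1, h2, h3, h4⟩ := har_gen hX hg hN hS hW hz
  have hpow : ∀ i (a : K), a ≠ 0 → ∀ n : ℕ, (v i).ord (a ^ n) = n * (v i).ord a := by
    intro i a ha n
    induction n with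
    | zero => rw [pow_zero, ord_one, Nat.cast_zero, zero_mul]
    | succ n ih =>
      rw [pow_succ, ord_mul _ _ _ (pow_ne_zero n ha) ha, ih]
      push_cast
      ring
  refine ⟨ι, hι, v, fun i => (v i).ord (W.eq (y i)), fun i => (v i).ord (D.eq (y i)), h2, ?_, ?_⟩
  · intro t θ hθ i
    have h5 := hθ (y i)
    have hθ0 : θ ≠ 0 := left_ne_zero_of_mul h5.1
    have h6 : (v i).ord (θ * D.eq (y i) ^ t) = 0 := ord_un0 _ h5.1 ((h1 i _).1 h5.2.1) ((h1 i _).1 h5.2.2)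
    rw [ord_mul _ _ _ hθ0 (pow_ne_zero t (D.ne _)), hpow i _ (D.ne _)] at h6
    linarith
  · intro e j n m f hf hm
    have e1 : ∀ j : ℕ, D ^ e * (W ^ j * S ^ n) = D ^ e * S ^ n * W ^ j := fun j => by
      rw [mul_comm (W ^ j) (S ^ n), mul_assoc]
    rw [e1] at hm ⊢
    rw [h4 (D ^ e * S ^ n) j m f hf hm]
    refine forall_congr' fun i => ?_
    have h5 : (v i).ord ((D ^ e * S ^ n).eq (y i)) = e * (v i).ord (D.eq (y i)) := by
      have h6 := h3 i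
      have h7 : (v i).ord (S.eq (y i)) = 0 := ord_un0 _ h6.1 ((h1 i _).1 h6.2.1) ((h1 i _).1 h6.2.2)
      rw [mul_eq, pow_eq, pow_eq, ord_mul _ _ _ (pow_ne_zero e (D.ne _)) (pow_ne_zero n (S.ne _)), hpow i _ (D.ne _),
        hpow i _ (S.ne _), h7]
      ring
    rw [h5]

theorem har_of [T0Space X.P] (hX : IsVar X) (hg : ∃ g, Gen X g) (hN : Nml X) {z : X.P} {S W : Cart X}
    (hS : SPr X z S) (hW : Effective W) (hz : Un (X.O z) (W.eq z)) :
    ∃ (ι : Type) (_ : Finite ι) (v : ι → Place k K) (w : ι → ℤ), (∀ i, 0 < w i) ∧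
      ∀ (j n m : ℕ) (f : K), f ≠ 0 → Sec (W ^ m * S ^ n) 1 f →
        (Sec (W ^ j * S ^ n) 1 f ↔ ∀ i, -(j : ℤ) * w i ≤ (v i).ord f) := by
  obtain ⟨ι, hι, v, w, u, h1, -, h2⟩ := har_tw hX hg hN hS hW hz 1
  refine ⟨ι, hι, v, w, h1, fun j n m f hf hm => ?_⟩
  have h3 := h2 0 j n m f hf (by rw [pow_zero, one_mul]; exact hm)
  rw [pow_zero, one_mul] at h3
  rw [h3]
  simp only [Nat.cast_zero, zero_mul, add_zero]

end Pool.Agent.H83.AY
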