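import Pool.Agent.H24.AB.H1f

/-!
# [H83 AY H1Y] ABUNDANCE (MP_e49dc9_ag): (H1) on the generic curve of `Y`, in the form of the assembly (helper24's `h1_Y`, rewritten)
-/

set_option autoImplicit false

namespace Pool.Agent.H83.AY

open Pool.Agent.H54.RV Pool.Agent.H83.TU Pool.Agent.H83.TK Pool.Agent.H24.TK Pool.Agent.H24.AB
open Pool.Agent.H24.VP (RR)
open MvPolynomial (map)

variable {k K : Type} [Field k] [Field K] [Algebra k K] {X : Mod k K}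
  {T : Cart X → Cart X → Cart X → ℝ} {l : Cart X → ℝ} {c : ℝ}
  {F : Type} [Field F] [Algebra F K] {Y : Mod F K} {π : Y.P → X.P} {ψ : Cart X →* Cart Y}
  {k' F' K' : Type} [Field k'] [Field F'] [Field K'] [Algebra k k'] [Algebra F F'] [Algebra K K'] [Algebra k' K'] [Algebra F' K']
  [Algebra k K'] [Algebra F K'] [Algebra k' F'] [IsScalarTower k K K'] [IsScalarTower k k' K'] [IsScalarTower F K K']
  [IsScalarTower F F' K'] [IsScalarTower k' F' K'] {σ : Type} [Fintype σ] {t : σ → k'}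

theorem h1_Y [CharZero k] [T0Space X.P] [T0Space Y.P] (h : Hyp X) (hr : RR T l c) {H P : Cart X} (hH : Ample H)
    {s : Option σ → K} (hs : LSys X H s) (hf : ∀ x, ∃ j : σ, Un (X.O x) (s (some j) * H.eq x))
    (hY : IsVar Y) (hgY : ∃ g, Gen Y g) (hc : Ctr X Y π) (hψ : ∀ D y, (ψ D).eq y = D.eq (π y)) (hs' : LSys Y (ψ H) s)
    (hbc : BC k K k' K' t) (hbF : BC F K F' K' (fun i => algebraMap k' F' (t i)))
    {g : X.P} (hg : Gen X g) {g' : Y.P} (hg' : Gen Y g') (hgg : π g' = g) (z : BP X σ) (hz : z.x = g)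
    (hq : ∀ f : MvPolynomial σ (X.O z.x), red X σ z.x f ∈ z.q ↔
      map ((X.O z.x).val : X.O z.x →+* K) (linO hs z.x) ∣ map ((X.O z.x).val : X.O z.x →+* K) f)
    (z' : BP Y σ) (hz' : z'.x = g')
    (hq' : ∀ f : MvPolynomial σ (Y.O z'.x), red Y σ z'.x f ∈ z'.q ↔
      map ((Y.O z'.x).val : Y.O z'.x →+* K) (linO hs' z'.x) ∣ map ((Y.O z'.x).val : Y.O z'.x →+* K) f)
    {Q : Cart X} (hQ : ∀ B : Cart X, Ample B → Ample (B * Q)) (hTQ : ∀ U V, T Q U V = 0)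
    (hQ' : ∀ B : Cart X, Ample B → Ample (B * Q⁻¹))
    (hP : ∀ B : Cart X, Ample B → Ample (B * P)) (h3 : T P P P = 0) (hPP : 0 < T P P H) (hl : 0 < l P)
    (hng : ¬ ∃ c₀ : ℝ, 0 < c₀ ∧ ∃ n₀ : ℕ, ∀ n : ℕ, n₀ ≤ n → c₀ * (n : ℝ) ^ 2 ≤ h0 (P ^ n) 1)
    (hF : ∀ x : F, ∃ (m : ℕ) (a b : K), Sec (P ^ m) 1 a ∧ Sec (P ^ m) 1 b ∧ b ≠ 0 ∧ algebraMap F K x * b = a)
    (hF' : ∀ (m : ℕ) (a b : K), Sec (P ^ m) 1 a → Sec (P ^ m) 1 b → b ≠ 0 → ∃ x : F, algebraMap F K x * b = a)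
    {r : ℕ} (hr1 : 1 ≤ r) {τ : K} (hτ : Sec (P ^ r) 1 τ) (hτ0 : algebraMap K K' τ ≠ 0) (hgs : gsec K' (fun i => algebraMap k' F' (t i)) s ≠ 0)
    (φ : (bcM Y hbF).kap z')
    (hφ : Sec (resD (isVar_bc hY hgY hbF) z' (bcD hY hgY hbF (ψ Q) *
      (bcD hY hgY hbF (ψ H) * prin (bcM Y hbF) (gsec K' (fun i => algebraMap k' F' (t i)) s) hgs))) 1 φ) :
    ∃ (j : ℕ) (f : K'), Sec ((bcD hY hgY hbF (ψ (P ^ r)) * prin (bcM Y hbF) (algebraMap K K' τ) hτ0) ^ j *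
        (bcD hY hgY hbF (ψ Q) *
          (bcD hY hgY hbF (ψ H) * prin (bcM Y hbF) (gsec K' (fun i => algebraMap k' F' (t i)) s) hgs))) 1 f ∧
      (bcM Y hbF).rs z' (f * (bcD hY hgY hbF (ψ Q) *
          (bcD hY hgY hbF (ψ H) * prin (bcM Y hbF) (gsec K' (fun i => algebraMap k' F' (t i)) s) hgs)).eq z') = φ := by
  have e1 : gsec K' (fun i => algebraMap k' F' (t i)) s = gsec K' t s := by
    unfold gsec
    refine congrArg₂ _ rfl (Finset.sum_congr rfl fun i _ => ?_)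
    rw [← IsScalarTower.algebraMap_apply k' F' K']
  have e2 : bcD hY hgY hbF (ψ Q) * (bcD hY hgY hbF (ψ H) * prin (bcM Y hbF) (gsec K' (fun i => algebraMap k' F' (t i)) s) hgs) =
      bcD hY hgY hbF (ψ (Q * H)) * prin (bcM Y hbF) (gsec K' t s) (gsec_ne hbc hs g) := by
    rw [map_mul, map_mul, mul_assoc]
    congr 2
    apply Cart.ext'
    intro x
    exact e1
  have hτ0' : τ ≠ 0 := fun h0 => hτ0 (by rw [h0, map_zero])
  have e3 : bcD hY hgY hbF (ψ (P ^ r)) * prin (bcM Y hbF) (algebraMap K K' τ) hτ0 =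
      bcD hY hgY hbF (ψ (P ^ r) * prin Y τ hτ0') := by
    apply Cart.ext'
    intro x
    change _ * _ = algebraMap K K' (_ * _)
    rw [map_mul]
    rfl
  rw [e2] at hφ
  rw [e2, e3]
  exact Pool.Agent.H24.AB.h1_Y h hr hH hs hf hbc hbF hY hgY hc hψ hs' hg z hz hq hg' z' hz' hq' (by rw [hz', hgg, hz]) hQ hTQ
    hQ' hP h3 hPP hl hng hF (fun m a b ha hb hb0 => by
      obtain ⟨x, hx⟩ := hF' m a b ha hb hb0
      exact ⟨x, (eq_div_iff hb0).2 hx⟩) hr1 hτ0' hτ φ hφ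

end Pool.Agent.H83.AY
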