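import Pool.Agent.H83.AY.Nrm

/-!
# [H83 AY Idn] ABUNDANCE (MP_e49dc9_ag): the generic members on `X'` and on `Y'` have the same function field

* `gs_mem`: the local ring of the generic member (as a subring of `K'`) in terms of `lin s` only.
* `idn`: the local rings of the generic members (of the same linear system `s`) on `bcM X h` and on `bcM Y h'` are equal.
* `idn_kap`: points with the same local ring have the same residue field.
* `idn_full`: both, with the constants.
-/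

set_option autoImplicit false

namespace Pool.Agent.H83.AY

open Pool.Agent.H54.RV MvPolynomial Pool.Agent.H83.TU Pool.Agent.H83.TK

section mem

variable {k K k' K' : Type} [Field k] [Field K] [Field k'] [Field K'] [Algebra k K] [Algebra k k'] [Algebra K K']
  [Algebra k' K'] [Algebra k K'] [IsScalarTower k K K'] [IsScalarTower k k' K'] {σ : Type} [Fintype σ] {X : Mod k K}
  {l : σ → k'}

private theorem lin_dvd' {H : Cart X} {s : Option σ → K} (hs : LSys X H s) (x : X.P) (f : MvPolynomial σ K) :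
    map ((X.O x).val : X.O x →+* K) (linO hs x) ∣ f ↔ lin s ∣ f := by
  have h0 : lin (fun i => s i * H.eq x) = lin s * C (H.eq x) := by
    unfold lin
    rw [add_mul, Finset.sum_mul, C_mul]
    congr 1
    refine Finset.sum_congr rfl fun i _ => ?_
    rw [C_mul, mul_assoc]
  have h1 : map ((X.O x).val : X.O x →+* K) (linO hs x) = lin s * C (H.eq x) := by
    unfold linO
    rw [map_lin, ← h0]
    rfl
  rw [h1]
  have h2 : IsUnit (C (H.eq x) : MvPolynomial σ K) := (isUnit_iff_ne_zero.2 (H.ne x)).map C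
  exact h2.mul_right_dvd

/-- the local ring of the generic member -/
theorem gs_mem {g : X.P} (hg : Gen X g) (h : BC k K k' K' l) {H : Cart X} {s : Option σ → K} (hs : LSys X H s)
    (z : BP X σ) (hz : z.x = g)
    (hq : ∀ f : MvPolynomial σ (X.O z.x), red X σ z.x f ∈ z.q ↔
      map ((X.O z.x).val : X.O z.x →+* K) (linO hs z.x) ∣ map ((X.O z.x).val : X.O z.x →+* K) f) (a : K') :
    a ∈ bcO h z ↔ ∃ f q : MvPolynomial σ K, ¬ lin s ∣ q ∧
      a * aeval (fun i => algebraMap k' K' (l i)) q = aeval (fun i => algebraMap k' K' (l i)) f := by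
  have hm : ∀ b : K, b ∈ X.O z.x := by
    intro b
    rw [hz, hg.top]
    exact Algebra.mem_top
  let ιK : K →+* X.O z.x := (RingHom.id K).codRestrict (X.O z.x) hm
  have hv : ∀ f : MvPolynomial σ K, map ((X.O z.x).val : X.O z.x →+* K) (map ιK f) = f := by
    intro f
    rw [map_map]
    have h1 : ((X.O z.x).val : X.O z.x →+* K).comp ιK = RingHom.id K := rfl
    rw [h1, map_id]
  constructor
  · intro ha
    obtain ⟨f, q, h1, h2⟩ := (mem_bcO h z a).1 ha
    rw [hq, lin_dvd'] at h1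
    rw [ev_eq, ev_eq] at h2
    exact ⟨_, _, h1, h2⟩
  · rintro ⟨f, q, h1, h2⟩
    refine (mem_bcO h z a).2 ⟨map ιK f, map ιK q, ?_, ?_⟩
    · rw [hq, lin_dvd', hv]
      exact h1
    · rw [ev_eq, ev_eq, hv, hv]
      exact h2

end mem

/-- points with the same local ring have the same residue field -/
theorem idn_kap {k₁ k₂ L : Type} [Field k₁] [Field k₂] [Field L] [Algebra k₁ L] [Algebra k₂ L] (M₁ : Mod k₁ L)
    (M₂ : Mod k₂ L) (z₁ : M₁.P) (z₂ : M₂.P) (hO : ∀ a, a ∈ M₁.O z₁ ↔ a ∈ M₂.O z₂) :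
    ∃ e : M₁.kap z₁ ≃+* M₂.kap z₂, ∀ a ∈ M₁.O z₁, e (M₁.rs z₁ a) = M₂.rs z₂ a := by
  let i : M₁.O z₁ ≃+* M₂.O z₂ :=
    { toFun := fun a => ⟨a.1, (hO _).1 a.2⟩
      invFun := fun a => ⟨a.1, (hO _).2 a.2⟩
      left_inv := fun _ => rfl
      right_inv := fun _ => rfl
      map_mul' := fun _ _ => rfl
      map_add' := fun _ _ => rfl }
  refine ⟨IsLocalRing.ResidueField.mapEquiv i, fun a ha => ?_⟩
  have h1 : M₁.rs z₁ a = IsLocalRing.residue (M₁.O z₁) ⟨a, ha⟩ := by
    unfold Mod.rs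
    rw [dif_pos ha]
  have h2 : M₂.rs z₂ a = IsLocalRing.residue (M₂.O z₂) ⟨a, (hO _).1 ha⟩ := by
    unfold Mod.rs
    rw [dif_pos ((hO _).1 ha)]
  rw [h1, h2]
  rfl

section idn

variable {k F K k' F' K' : Type} [Field k] [Field F] [Field K] [Field k'] [Field F'] [Field K'] [Algebra k K]
  [Algebra F K] [Algebra k k'] [Algebra F F'] [Algebra K K'] [Algebra k' K'] [Algebra F' K'] [Algebra k K']
  [Algebra F K'] [Algebra k' F'] [IsScalarTower k K K'] [IsScalarTower k k' K'] [IsScalarTower F K K']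
  [IsScalarTower F F' K'] [IsScalarTower k' F' K'] {σ : Type} [Fintype σ] {X : Mod k K} {Y : Mod F K} {l : σ → k'}

/-- the generic members have the same local ring -/
theorem idn {gX : X.P} (hgX : Gen X gX) {gY : Y.P} (hgY : Gen Y gY) (h : BC k K k' K' l)
    (h' : BC F K F' K' (fun i => algebraMap k' F' (l i))) {H : Cart X} {H' : Cart Y} {s : Option σ → K}
    (hs : LSys X H s) (hs' : LSys Y H' s) (z : BP X σ) (hz : z.x = gX)
    (hq : ∀ f : MvPolynomial σ (X.O z.x), red X σ z.x f ∈ z.q ↔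
      map ((X.O z.x).val : X.O z.x →+* K) (linO hs z.x) ∣ map ((X.O z.x).val : X.O z.x →+* K) f)
    (z' : BP Y σ) (hz' : z'.x = gY)
    (hq' : ∀ f : MvPolynomial σ (Y.O z'.x), red Y σ z'.x f ∈ z'.q ↔
      map ((Y.O z'.x).val : Y.O z'.x →+* K) (linO hs' z'.x) ∣ map ((Y.O z'.x).val : Y.O z'.x →+* K) f) (a : K') :
    a ∈ bcO h z ↔ a ∈ bcO h' z' := by
  rw [gs_mem hgX h hs z hz hq, gs_mem hgY h' hs' z' hz' hq']
  have h1 : (fun i => algebraMap F' K' (algebraMap k' F' (l i))) = fun i => algebraMap k' K' (l i) := by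
    funext i
    rw [← IsScalarTower.algebraMap_apply k' F' K']
  rw [h1]

/-- the same function field, with the constants -/
theorem idn_full {gX : X.P} (hgX : Gen X gX) {gY : Y.P} (hgY : Gen Y gY) (h : BC k K k' K' l)
    (h' : BC F K F' K' (fun i => algebraMap k' F' (l i))) {H : Cart X} {H' : Cart Y} {s : Option σ → K}
    (hs : LSys X H s) (hs' : LSys Y H' s) (z : BP X σ) (hz : z.x = gX)
    (hq : ∀ f : MvPolynomial σ (X.O z.x), red X σ z.x f ∈ z.q ↔
      map ((X.O z.x).val : X.O z.x →+* K) (linO hs z.x) ∣ map ((X.O z.x).val : X.O z.x →+* K) f)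
    (z' : BP Y σ) (hz' : z'.x = gY)
    (hq' : ∀ f : MvPolynomial σ (Y.O z'.x), red Y σ z'.x f ∈ z'.q ↔
      map ((Y.O z'.x).val : Y.O z'.x →+* K) (linO hs' z'.x) ∣ map ((Y.O z'.x).val : Y.O z'.x →+* K) f) :
    ∃ e : (bcM X h).kap z ≃+* (bcM Y h').kap z',
      (∀ a ∈ (bcM X h).O z, e ((bcM X h).rs z a) = (bcM Y h').rs z' a) ∧
      (∀ a, a ∈ (bcM X h).O z ↔ a ∈ (bcM Y h').O z') ∧
      ∀ c : k', e (algebraMap k' ((bcM X h).kap z) c) = algebraMap F' ((bcM Y h').kap z') (algebraMap k' F' c) := by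
  have hO : ∀ a, a ∈ (bcM X h).O z ↔ a ∈ (bcM Y h').O z' := idn hgX hgY h h' hs hs' z hz hq z' hz' hq'
  obtain ⟨e, he⟩ := idn_kap (bcM X h) (bcM Y h') z z' hO
  refine ⟨e, he, hO, fun c => ?_⟩
  have h1 := rs_alg (X := bcM X h) z c
  have h2 := rs_alg (X := bcM Y h') z' (algebraMap k' F' c)
  rw [← IsScalarTower.algebraMap_apply k' F' K'] at h2
  rw [← h1, ← h2]
  exact he _ (((bcM X h).O z).algebraMap_mem c)

end idn

end Pool.Agent.H83.AY
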