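import Pool.Agent.H83.AY.Hrt
import Pool.Agent.H83.TU.RA

/-!
# [H83 AY Iot] ABUNDANCE (MP_e49dc9_ag): the components of an effective divisor on a normal variety

`Iot W`: the prime divisors in the support of `W`; `iot_fin`: finitely many; `vI i`: the order at `i`; `wI i`: the order of `W`.
`iot_sec`: the sections of `V + j W` are the sections of some `V + j' W` whose order (with `V.eq`) is at least `- j wI i` at all `i`.
-/

set_option autoImplicit false

namespace Pool.Agent.H83.AY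

open Pool.Agent.H54.RV Pool.Agent.H83.TU Pool.Agent.H83.TK

variable {k K : Type} [Field k] [Field K] [Algebra k K] {X : Mod k K}

/-- the prime divisors in the support of `W` -/
def Iot (W : Cart X) : Type := {y : X.P // (∃ P : PDiv X, P.η = y) ∧ ¬ Un (X.O y) (W.eq y)}

/-- the place of a component -/
noncomputable def plI {W : Cart X} (i : Iot W) : Place k K := (Classical.choose i.2.1).p

theorem plI_mem {W : Cart X} (i : Iot W) (a : K) : a ∈ X.O i.1 ↔ a ∈ (plI i).R := by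
  have h1 := (Classical.choose i.2.1).mem a
  have h2 := Classical.choose_spec i.2.1
  rw [h2] at h1
  exact h1

/-- the order at a component -/
noncomputable def vI {W : Cart X} (i : Iot W) (f : K) : ℤ := (plI i).ord f

/-- the multiplicity of a component -/
noncomputable def wI {W : Cart X} (i : Iot W) : ℤ := vI i (W.eq i.1)

theorem vI_mul {W : Cart X} (i : Iot W) (f g : K) (hf : f ≠ 0) (hg : g ≠ 0) : vI i (f * g) = vI i f + vI i g :=
  ord_mul _ f g hf hg

theorem vI_inv {W : Cart X} (i : Iot W) (f : K) : vI i f⁻¹ = - vI i f := ord_inv _ f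

theorem vI_one {W : Cart X} (i : Iot W) : vI i 1 = 0 := ord_one _

theorem vI_pow {W : Cart X} (i : Iot W) (f : K) (hf : f ≠ 0) (n : ℕ) : vI i (f ^ n) = n * vI i f := by
  induction n with
  | zero => rw [pow_zero, vI_one, Nat.cast_zero, zero_mul]
  | succ n ih =>
    rw [pow_succ, vI_mul i _ _ (pow_ne_zero n hf) hf, ih]
    push_cast
    ring

theorem vI_nn {W : Cart X} (i : Iot W) (f : K) (hf : f ≠ 0) : 0 ≤ vI i f ↔ f ∈ X.O i.1 := by
  rw [plI_mem]
  exact ord_nonneg _ f hf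

theorem vI_eq {W : Cart X} (i : Iot W) (f : K) (hf : f ≠ 0) : vI i f = 0 ↔ Un (X.O i.1) f := by
  unfold vI
  rw [ord_eq_zero _ f hf, ← plI_mem, ← plI_mem]
  exact ⟨fun h => ⟨hf, h.1, h.2⟩, fun h => ⟨h.2.1, h.2.2⟩⟩

theorem vI_add {W : Cart X} (i : Iot W) (f g : K) (hf : f ≠ 0) (hg : g ≠ 0) (h : f + g ≠ 0) :
    min (vI i f) (vI i g) ≤ vI i (f + g) := by
  have key : ∀ f g : K, f ≠ 0 → g ≠ 0 → f + g ≠ 0 → vI i f ≤ vI i g → vI i f ≤ vI i (f + g) := by
    intro f g hf hg h hle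
    have h1 : g / f ∈ X.O i.1 := by
      rw [← vI_nn i _ (div_ne_zero hg hf), div_eq_mul_inv, vI_mul i _ _ hg (inv_ne_zero hf), vI_inv]
      omega
    have h2 : (f + g) / f ∈ X.O i.1 := by
      rw [add_div, div_self hf]
      exact add_mem (one_mem _) h1
    have h3 := (vI_nn i _ (div_ne_zero h hf)).2 h2
    rw [div_eq_mul_inv, vI_mul i _ _ h (inv_ne_zero hf), vI_inv] at h3
    omega
  rcases le_total (vI i f) (vI i g) with h1 | h1
  · exact (min_le_left _ _).trans (key f g hf hg h h1)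
  · have h2 := key g f hg hf (by rwa [add_comm]) h1
    rw [add_comm f g]
    exact (min_le_right _ _).trans h2

theorem vI_alg {W : Cart X} (i : Iot W) (c : k) (hc : c ≠ 0) : vI i (algebraMap k K c) = 0 := by
  rw [vI_eq i _ ((map_ne_zero _).2 hc)]
  exact ⟨(map_ne_zero _).2 hc, (X.O i.1).algebraMap_mem c, by rw [← map_inv₀]; exact (X.O i.1).algebraMap_mem _⟩

theorem wI_pos {W : Cart X} (hW : Effective W) (i : Iot W) : 0 < wI i := by
  have h1 := (vI_nn i _ (W.ne i.1)).2 (hW i.1)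
  have h2 : vI i (W.eq i.1) ≠ 0 := fun h => i.2.2 ((vI_eq i _ (W.ne i.1)).1 h)
  unfold wI
  omega

/-- the sections of `V + j W` -/
theorem iot_sec (hX : IsVar X) (hg : ∃ g, Gen X g) (hN : Nml X) {W : Cart X} (hW : Effective W) (V : Cart X) (j : ℕ) (f : K) :
    Sec (V * W ^ j) 1 f ↔ (∃ j', Sec (V * W ^ j') 1 f) ∧
      ∀ i : Iot W, f ≠ 0 → -(j : ℤ) * wI i ≤ vI i f + vI i (V.eq i.1) := by
  have hval : ∀ (i : Iot W), f ≠ 0 → (f * (V * W ^ j).eq i.1 ∈ X.O i.1 ↔
      -(j : ℤ) * wI i ≤ vI i f + vI i (V.eq i.1)) := by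
    intro i hf
    have h1 : f * (V * W ^ j).eq i.1 = f * (V.eq i.1 * W.eq i.1 ^ j) := by rw [mul_eq, pow_eq]
    have h2 : W.eq i.1 ^ j ≠ 0 := pow_ne_zero _ (W.ne _)
    rw [h1, ← vI_nn i _ (mul_ne_zero hf (mul_ne_zero (V.ne _) h2)), vI_mul i _ _ hf (mul_ne_zero (V.ne _) h2),
      vI_mul i _ _ (V.ne _) h2, vI_pow i _ (W.ne _)]
    unfold wI
    constructor
    · intro h
      linarith
    · intro h
      linarith
  constructor
  · intro h
    refine ⟨⟨j, h⟩, fun i hf => (hval i hf).1 ?_⟩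
    have h1 := h i.1
    rwa [pow_one] at h1
  · rintro ⟨⟨j', hj'⟩, h⟩
    rcases eq_or_ne f 0 with hf | hf
    · rw [hf]
      intro x
      rw [zero_mul]
      exact zero_mem _
    refine hrt_sec hX hg hN _ fun P => ?_
    by_cases hP : Un (X.O P.η) (W.eq P.η)
    · have h1 := hj' P.η
      rw [pow_one, mul_eq, pow_eq] at h1
      rw [mul_eq, pow_eq]
      have h2 : f * V.eq P.η ∈ X.O P.η := by
        have h3 := mul_mem h1 (un_inv (un_pow hP j')).2.1
        have h4 : W.eq P.η ^ j' ≠ 0 := pow_ne_zero _ (W.ne _)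
        have h5 : f * (V.eq P.η * W.eq P.η ^ j') * (W.eq P.η ^ j')⁻¹ = f * V.eq P.η := by field_simp
        rwa [h5] at h3
      rw [← mul_assoc]
      exact mul_mem h2 (pow_mem (hW _) j)
    · exact (hval ⟨P.η, ⟨P, rfl⟩, hP⟩ hf).2 (h ⟨P.η, ⟨P, rfl⟩, hP⟩ hf)

private theorem ker_iff {U : Set X.P} {x : X.P} (hx : x ∈ U) (a : X.sec U) :
    a ∈ RingHom.ker (evS X x hx : X.sec U →+* X.kap x) ↔ ¬ Un (X.O x) (a : K) := by
  rw [← rs_ne x ((mem_sec U a.1).1 a.2 x hx), not_not]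
  exact Iff.rfl

/-- a point above a prime divisor where some function is not a unit is the prime divisor -/
theorem pdiv_max (hX : IsVar X) (P : PDiv X) {y : X.P} (hy : y ⤳ P.η) {a : K} (ha : a ≠ 0) (hn : ¬ Un (X.O y) a) :
    X.O y = X.O P.η := by
  have hle := hX.spec _ _ hy
  refine le_antisymm (fun b hb => ?_) hle
  by_contra hbP
  -- then `O y` is the whole field
  have hb0 : b ≠ 0 := fun h => hbP (h ▸ zero_mem _)
  have hord : P.p.ord b < 0 := by
    have h1 := ord_nonneg P.p b hb0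
    rw [← P.mem] at h1
    by_contra h2
    exact hbP (h1.1 (not_lt.1 h2))
  have key : ∀ c : K, c ∈ X.O y := by
    intro c
    rcases eq_or_ne c 0 with hc | hc
    · rw [hc]
      exact zero_mem _
    obtain ⟨n, hn⟩ : ∃ n : ℕ, 0 ≤ P.p.ord c + n * (- P.p.ord b) := by
      refine ⟨(- P.p.ord c).toNat, ?_⟩
      have h1 := Int.self_le_toNat (- P.p.ord c)
      nlinarith [Int.toNat_of_nonneg (a := max 0 (-P.p.ord c)) (le_max_left _ _)]
    have h2 : ∀ m : ℕ, P.p.ord (b ^ m)⁻¹ = m * (- P.p.ord b) := by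
      intro m
      induction m with
      | zero => rw [pow_zero, inv_one, ord_one, Nat.cast_zero, zero_mul]
      | succ m ih =>
        rw [pow_succ, mul_inv, ord_mul _ _ _ (inv_ne_zero (pow_ne_zero m hb0)) (inv_ne_zero hb0), ih, ord_inv]
        push_cast
        ring
    have h3 : c * (b ^ n)⁻¹ ∈ X.O P.η := by
      rw [P.mem, ← ord_nonneg P.p _ (mul_ne_zero hc (inv_ne_zero (pow_ne_zero n hb0))),
        ord_mul _ _ _ hc (inv_ne_zero (pow_ne_zero n hb0)), h2]
      exact hn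
    have h4 : c = c * (b ^ n)⁻¹ * b ^ n := by
      have := pow_ne_zero n hb0
      field_simp
    rw [h4]
    exact mul_mem (hle h3) (pow_mem hb n)
  exact hn ⟨ha, key a, key a⁻¹⟩

open Classical in
private theorem fin_aff [T0Space X.P] (hX : IsVar X) (U : Set X.P) (hU : X.aff U) (a : K) (ha : a ∈ X.sec U)
    (h0 : a ≠ 0) : {x | x ∈ U ∧ ¬ Un (X.O x) a ∧ ∃ P : PDiv X, P.η = x}.Finite := by
  rcases Set.eq_empty_or_nonempty U with he | hne
  · rw [he]
    simp
  have h1 : Algebra.FiniteType k (X.sec U) := (Subalgebra.fg_iff_finiteType _).1 (hX.fg U hU hne)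
  have h2 : IsNoetherianRing (X.sec U) := Algebra.FiniteType.isNoetherianRing k (X.sec U)
  let f : X.P → Ideal (X.sec U) := fun x =>
    if hx : x ∈ U then RingHom.ker (evS X x hx : X.sec U →+* X.kap x) else ⊥
  have hf : ∀ x (hx : x ∈ U), f x = RingHom.ker (evS X x hx : X.sec U →+* X.kap x) := fun x hx => dif_pos hx
  refine Set.Finite.of_finite_image (f := f) ?_ ?_
  · refine (Ideal.finite_minimalPrimes_of_isNoetherianRing (X.sec U) (Ideal.span {⟨a, ha⟩})).subset ?_
    rintro _ ⟨x, ⟨hx, hxa, P, rfl⟩, rfl⟩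
    rw [hf _ hx]
    have hap : (⟨a, ha⟩ : X.sec U) ∈ RingHom.ker (evS X P.η hx : X.sec U →+* X.kap P.η) := (ker_iff hx _).2 hxa
    refine ⟨⟨RingHom.ker_isPrime _, ?_⟩, ?_⟩
    · rw [Ideal.span_le, Set.singleton_subset_iff]
      exact hap
    · rintro q ⟨hq, hle⟩ hqp
      have haq : (⟨a, ha⟩ : X.sec U) ∈ q := hle (Ideal.mem_span_singleton_self _)
      obtain ⟨y, hy, hqy⟩ := hX.prime U hU hne q hq
      have hyx : y ⤳ P.η := by
        refine sp_of hX hU hy hx fun b hb h4 h5 => ?_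
        have h6 : (⟨b, hb⟩ : X.sec U) ∈ q := by
          rw [hqy]
          intro h7
          exact (rs_ne y h7.2.1).2 h7 h4
        exact (ker_iff hx _).1 (hqp h6) h5
      have hO := pdiv_max hX P hyx h0 ((hqy _).1 haq)
      intro b hb
      rw [ker_iff hx] at hb
      rw [hqy, hO]
      exact hb
  · rintro x ⟨hx, hxa, -⟩ y ⟨hy, hya, -⟩ hxy
    rw [hf x hx, hf y hy] at hxy
    have h3 : x ⤳ y := by
      refine sp_of hX hU hx hy fun b hb h4 h5 => ?_
      have h6 : (⟨b, hb⟩ : X.sec U) ∈ RingHom.ker (evS X x hx : X.sec U →+* X.kap x) := h4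
      rw [hxy] at h6
      exact (ker_iff hy _).1 h6 h5
    have h4 : y ⤳ x := by
      refine sp_of hX hU hy hx fun b hb h4 h5 => ?_
      have h6 : (⟨b, hb⟩ : X.sec U) ∈ RingHom.ker (evS X y hy : X.sec U →+* X.kap y) := h4
      rw [← hxy] at h6
      exact (ker_iff hx _).1 h6 h5
    exact (h3.antisymm h4).eq

private theorem fin_un [T0Space X.P] (hX : IsVar X) (hg : ∃ g, Gen X g) (f : K) (hf : f ≠ 0) :
    {x | ¬ Un (X.O x) f ∧ ∃ P : PDiv X, P.η = x}.Finite := by
  choose U hU hxU using hX.chart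
  have := hX.comp
  obtain ⟨T, -, hT⟩ := (isCompact_univ (X := X.P)).elim_nhds_subcover U
    (fun x _ => (hX.op _ (hU x)).mem_nhds (hxU x))
  have hloc : ∀ x : X.P, {y | y ∈ U x ∧ ¬ Un (X.O y) f ∧ ∃ P : PDiv X, P.η = y}.Finite := by
    intro x
    obtain ⟨s, hs, hs0, hfs⟩ := gen_frac hX hg (U x) (hU x) ⟨x, hxU x⟩ f
    refine ((fin_aff hX (U x) (hU x) (f * s) hfs (mul_ne_zero hf hs0)).union
      (fin_aff hX (U x) (hU x) s hs hs0)).subset ?_
    rintro y ⟨hy, hyf, hyn⟩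
    by_contra hcon
    apply hyf
    have h1 : Un (X.O y) (f * s) := by
      by_contra h1
      exact hcon (Or.inl ⟨hy, h1, hyn⟩)
    have h2 : Un (X.O y) s := by
      by_contra h2
      exact hcon (Or.inr ⟨hy, h2, hyn⟩)
    have h3 := un_div h1 h2
    rwa [mul_div_cancel_right₀ _ hs0] at h3
  refine Set.Finite.subset (T.finite_toSet.biUnion fun x _ => hloc x) ?_
  intro y hy
  have h1 := hT (Set.mem_univ y)
  rw [Set.mem_iUnion₂] at h1
  obtain ⟨x, hx, hyx⟩ := h1
  rw [Set.mem_iUnion₂]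
  exact ⟨x, hx, hyx, hy⟩

/-- finitely many components -/
theorem iot_fin [T0Space X.P] (hX : IsVar X) (hg : ∃ g, Gen X g) (W : Cart X) : Finite (Iot W) := by
  obtain ⟨T, hT⟩ := fin_cover hX W
  have h1 : {y : X.P | (∃ P : PDiv X, P.η = y) ∧ ¬ Un (X.O y) (W.eq y)}.Finite := by
    refine Set.Finite.subset (T.finite_toSet.biUnion fun x _ => fin_un hX hg (W.eq x) (W.ne x)) ?_
    rintro y ⟨hP, hy⟩
    obtain ⟨x, hx, hun⟩ := hT y
    rw [Set.mem_iUnion₂]
    refine ⟨x, hx, fun h1 => hy ?_, hP⟩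
    have h2 := un_mul hun h1
    rwa [div_mul_cancel₀ _ (W.ne x)] at h2
  exact h1.to_subtype

end Pool.Agent.H83.AY
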