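import Pool.Agent.H83.AY.Hrt
import Pool.Agent.H61.AB.Def

/-!
# [H83 AY Pls] ABUNDANCE (MP_e49dc9_ag): sections on a normal variety by places

`sec_pl`: on a normal variety `g` is a section of `D` iff `g * D.eq (cenK w)` is in `w.R` for all places `w` of the function field.
`secL_ld`: `secL D 1 = LD (fun w => D.eq (cenK w))` (`H61/AB/Def`).
-/

set_option autoImplicit false

namespace Pool.Agent.H83.AY

open Pool.Agent.H54.RV Pool.Agent.H83.TU Pool.Agent.H83.TK

variable {k K : Type} [Field k] [Field K] [Algebra k K] {X : Mod k K}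

theorem sec_pl (hX : IsVar X) (hg : ∃ g, Gen X g) (hN : Nml X) (D : Cart X) (g : K) :
    Sec D 1 g ↔ ∀ w : Place k K, g * D.eq (cenK hX hg w) ∈ w.R := by
  constructor
  · intro h w
    have h1 := h (cenK hX hg w)
    rw [pow_one] at h1
    exact cenK_le hX hg w _ h1
  · intro h
    refine hrt_sec hX hg hN D fun P => ?_
    have h1 := h P.p
    rw [P.cen hX hg] at h1
    exact (P.mem _).2 h1

theorem secL_ld (hX : IsVar X) (hg : ∃ g, Gen X g) (hN : Nml X) (D : Cart X) :
    secL D 1 = Pool.Agent.H61.AB.LD (fun w : Place k K => D.eq (cenK hX hg w)) := by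
  ext g
  rw [Pool.Agent.H61.AB.mem_LD]
  exact sec_pl hX hg hN D g

end Pool.Agent.H83.AY
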